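import Pool.Agent.T9h79.MM.Chain
import Pool.Agent.Q57.HK.Gen
import Pool.Agent.Q57.CX.Top

/-!
# The log minimal model program on toroidal modifications of covers of products of projective spaces

Let `F i` be a form of degree `d i` in `n i + 1` variables whose zero set in the projective
`n i`-space is a smooth hypersurface, and let `H i` be the cyclic hypersurface `w ^ (d i) = F i` in
the projective `(n i + 1)`-space. Let `K` be the function field of a quotient
`Y = (H 1 × ... × H r) / G`, where `G` is any group of diagonal automorphisms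
`w i ↦ ζ i * w i`, `ζ i ^ (d i) = 1`. Equivalently, `K` is generated by the affine coordinates
`x i j / x i 0` of the product of the projective `n i`-spaces and by roots `z j`,
`z j ^ (m j) = ∏ i, (F i (x i) / x i 0 ^ (d i)) ^ (a j i)`, where `m j` divides `a j i * d i`: the
abelian covers of the product of the projective spaces which are branched along the hypersurfaces
`F i = 0` of the factors. There is no condition on the dimensions and the degrees, so `Y` can be
rationally connected, Calabi-Yau, of general type, or of any intermediate Kodaira dimension.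

**The varieties.** The toroidal modifications `X` of `Y` are given by the subdivisions (fans) of the
positive orthant into rational polyhedral cones; `fan` is the set of the maximal cones, each given by
a finite set of admissible generators which span the space.

**The divisors.** `D 1, ..., D p` are toroidal `ℚ`-Cartier divisors on `X`: sums of multiples `β i t`
of the hyperplane classes of the factors and of the prime divisors of the boundary of `X`. The
coefficient of the pullback of `D i` at a prime divisor `P` over `X` is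
`δ i P = coefficient F d x (c i) (β i) P`, where `- c i v = ∑ k, u σ i k * v k` on the cone `σ`. Take
divisors `D i` which generate all toroidal divisors on a `ℚ`-factorial `X` (the cones are
simplicial). If all `n i ≥ 3` then every divisor on `X` is, up to `ℚ`-linear equivalence, toroidal
(Lefschetz; this remark is not used and not proved here), so for every log canonical pair `(X, Δ)`
the divisor `K_X + Δ` has a class `κ`, `K_X + Δ ∼ ∑ i, κ i * D i`, and the theorem is about all log
canonical pairs on `X`; in general it is about the pairs for which `K_X + Δ` is `ℚ`-linearly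
equivalent to a combination of the `D i`.

**The models** `X'` of `X` (birational maps `X --> X'` whose inverse contracts no divisor) are given by
the coefficients `δ' i P` of the pullbacks of the images of the `D i` at the prime divisors `P` over
`X'`. A class is ample on `X'` (`AmpleOn`) if all near classes `μ` are `SemiampleOn` the model: the
integral multiples of `∑ i, μ i * D i` have the same sections on `X` and on `X'`, and one of them has
no base points on `X'`; the model `X'` is `Proj` of the ring of the sections of the multiples of an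
ample class.

**The theorem.** The minimal model program for `K_X + Δ` with scaling of a general ample divisor `A`,
arbitrarily near to a given one, is a finite sequence `X = X 0 --> X 1 --> ... --> X L`, where `L` is
at most a number `B` which depends only on `X` (not on `Δ` and `A`). In each step a facet of the nef
cone of `X j` is crossed, on whose extremal ray `K + Δ` is negative: the step is the contraction of
this ray if it is divisorial, and its flip if the contraction is small. In particular the flips exist.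
At the end `K + Δ` is nef, and even semiample, on `X L`, or `X L` has a Mori fibration: the contraction
of a `K + Δ`-negative extremal ray which is given by a class in the boundary of the effective cone.
This is the assertion of Q1 for these pairs.

Proof: by the starting library `Pool.Agent.Q57` the multigraded ring of the sections of the
combinations of the `D i` is finitely generated. By linear programming the asymptotic orders of the
sections are, at all prime divisors `P` at once, linear on the chambers of a finite arrangement of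
rational hyperplanes in the space of classes (`Pool.Agent.T9h79.MM.cell_lin`); a segment in general
position crosses one hyperplane at a time, and concavity gives the negativity lemma
(`Pool.Agent.T9h79.MM.chain`).
-/

set_option autoImplicit false
set_option linter.unusedSectionVars false

open FF MvPolynomial Pool.Agent.W602.GT

namespace Pool.Agent.Results.MP_a27c81_ag.MinimalModelProgram

/-- The form `F` has no singular zeros: its partial derivatives have no common zero but `0`. -/
def Smooth {n : ℕ} (F : MvPolynomial (Fin (n + 1)) ℂ) : Prop :=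
  ∀ x : Fin (n + 1) → ℂ, x ≠ 0 → ∃ l, eval x (pderiv l F) ≠ 0

section fans

variable {r R : ℕ}

/-- The vectors `v ≠ 0` of multiplicities which satisfy the divisibility conditions: the nonzero
points of the positive orthant in the lattice of the toroidal variety `Y`. -/
def Admissible (m : Fin R → ℕ) (a : Fin R → Fin r → ℕ) (v : Fin r → ℕ) : Prop :=
  v ≠ 0 ∧ ∀ j, m j ∣ ∑ i, a j i * v i

/-- The vector `v` is in the cone which is generated by the vectors in `σ`. -/
def InCone (σ : Finset (Fin r → ℕ)) (v : Fin r → ℕ) : Prop :=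
  ∃ w : (Fin r → ℕ) → ℚ, (∀ s, 0 ≤ w s) ∧ ∀ k, (v k : ℚ) = ∑ s ∈ σ, w s * s k

/-- `fan` is a finite set of cones, each generated by a finite set of admissible vectors which span
the whole space, which cover all admissible vectors. -/
structure IsFan (m : Fin R → ℕ) (a : Fin R → Fin r → ℕ) (fan : Finset (Finset (Fin r → ℕ))) :
    Prop where
  adm : ∀ σ ∈ fan, ∀ s ∈ σ, Admissible m a s
  full : ∀ σ ∈ fan, ∀ f : Fin r → ℚ, ∃ q : (Fin r → ℕ) → ℚ, ∀ k, f k = ∑ s ∈ σ, q s * s k
  cover : ∀ v, Admissible m a v → ∃ σ ∈ fan, InCone σ v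

end fans

section places

variable {r : ℕ} {n : Fin r → ℕ} {K : Type} [Field K] [Algebra ℂ K]

/-- The affine coordinates of the product of the projective spaces. -/
noncomputable def affine (x : ∀ i, Fin (n i + 1) → K) (b : (i : Fin r) × Fin (n i)) : K :=
  x b.1 b.2.succ / x b.1 0

/-- The minimal order at `P` of the homogeneous coordinates `y`. -/
noncomputable def minimalOrder {n : ℕ} (y : Fin (n + 1) → K) (P : Place ℂ K) : ℤ :=
  Finset.univ.inf' Finset.univ_nonempty fun j => P.ord (y j)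

/-- The multiplicities of the hypersurfaces `F i = 0` along the prime divisor `P`; the `x i j` are
the homogeneous coordinates of the `i`-th factor, which are divided by one of minimal order. -/
noncomputable def multiplicities (F : ∀ i, MvPolynomial (Fin (n i + 1)) ℂ) (d : Fin r → ℕ)
    (x : ∀ i, Fin (n i + 1) → K) (P : Place ℂ K) (i : Fin r) : ℕ :=
  (P.ord (aeval (x i) (F i)) - d i * minimalOrder (x i) P).toNat

/-- The coefficient at the prime divisor `P` of the pullback of the toroidal divisor with the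
function `c` of the multiplicities and the degrees `β t`: it is `c v` plus `β t` times the
coefficient at `P` of the hyperplane class of the `t`-th factor, which is represented by the divisor
with the coefficients `- minimalOrder (x t) P` (its sections are the linear forms in the `x t j`). -/
noncomputable def coefficient (F : ∀ i, MvPolynomial (Fin (n i + 1)) ℂ) (d : Fin r → ℕ)
    (x : ∀ i, Fin (n i + 1) → K) (c : (Fin r → ℕ) → ℚ) (β : Fin r → ℤ) (P : Place ℂ K) : ℚ :=
  c (multiplicities F d x P) - ∑ t, (β t : ℚ) * minimalOrder (x t) P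

end places

section divisors

variable {K : Type} [Field K] [Algebra ℂ K] {p : ℕ} (N : ℕ) (δ : Fin p → Place ℂ K → ℚ)

/-- `f` is a section of the integral combination `∑ i, ν i * D i`, where `δ i P` is the coefficient of
the pullback of the divisor `D i` at the prime divisor `P` over the model (a divisorial place `P` of
the function field `K`): the order of `f` at every `P` is at least minus the coefficient
`∑ i, ν i * δ i P`, or `f = 0`. -/
def IsSection (ν : Fin p → ℤ) (f : K) : Prop :=
  ∀ P : Place ℂ K, Divisorial N P → f = 0 ∨ - ∑ i, (ν i : ℚ) * δ i P ≤ P.ord f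

/-- The rational combination `∑ i, μ i * D i` is effective on `X`, up to `ℚ`-linear equivalence: an
integral multiple of it has a section which is not `0`. -/
def Effective (μ : Fin p → ℚ) : Prop :=
  ∃ m : ℕ, 1 ≤ m ∧ ∃ ν : Fin p → ℤ, (∀ i, (m : ℚ) * μ i = ν i) ∧ ∃ f : K, f ≠ 0 ∧ IsSection N δ ν f

/-- **Semiample on a model.** Let `δ' i P` be the coefficients of the pullbacks of the images of the
`D i` on the model `X'` of `X`. The integral multiples of the combination `∑ i, μ i * D i` have the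
same sections on `X` and on `X'`, and an integral multiple of it has no base points on `X'`: it has a
nonzero section, and for every prime divisor `P` over `X'` a section whose order at `P` is the minimal
one. -/
def SemiampleOn (δ' : Fin p → Place ℂ K → ℚ) (μ : Fin p → ℚ) : Prop :=
  (∀ (m : ℕ) (ν : Fin p → ℤ), (∀ i, (m : ℚ) * μ i = ν i) → ∀ f : K,
    IsSection N δ ν f ↔ IsSection N δ' ν f) ∧
  ∃ m : ℕ, 1 ≤ m ∧ ∃ ν : Fin p → ℤ, (∀ i, (m : ℚ) * μ i = ν i) ∧
    (∃ f : K, f ≠ 0 ∧ IsSection N δ' ν f) ∧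
    ∀ P : Place ℂ K, Divisorial N P → ∃ f : K, f ≠ 0 ∧ IsSection N δ' ν f ∧
      (P.ord f : ℚ) ≤ - ∑ i, (ν i : ℚ) * δ' i P

/-- **Ample on a model.** All combinations near `∑ i, μ i * D i` are semiample on the model. -/
def AmpleOn (δ' : Fin p → Place ℂ K → ℚ) (μ : Fin p → ℚ) : Prop :=
  ∃ ε : ℚ, 0 < ε ∧ ∀ μ' : Fin p → ℚ, (∀ i, |μ' i - μ i| ≤ ε) → SemiampleOn N δ δ' μ'

/-- **A step of the minimal model program** for the class `κ` of `K_X + Δ`, from the model with the
coefficients `δ'` to the model with the coefficients `δ''`, at the class `μ`. Near `μ` the classes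
which are semiample on the first model are those with `ℓ ≥ 0`, and the classes which are semiample on
the second model are those with `ℓ ≤ 0` (so `μ` is semiample on both and defines the contraction of an
extremal ray, with the intersection numbers `ℓ`, of the first model, and a morphism from the second
model to the same variety), the extremal ray is `K_X + Δ`-negative, and the coefficients of `K_X + Δ`
do not increase, and some coefficient becomes smaller. -/
structure IsStep (κ μ : Fin p → ℚ) (δ' δ'' : Fin p → Place ℂ K → ℚ) (ℓ : Fin p → ℚ) : Prop where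
  negative : ∑ i, ℓ i * κ i < 0
  trivial : ∑ i, ℓ i * μ i = 0
  wall : ∃ ε : ℚ, 0 < ε ∧ ∀ μ' : Fin p → ℚ, (∀ i, |μ' i - μ i| ≤ ε) →
    (0 ≤ ∑ i, ℓ i * μ' i ↔ SemiampleOn N δ δ' μ') ∧
    (∑ i, ℓ i * μ' i ≤ 0 ↔ SemiampleOn N δ δ'' μ')
  le : ∀ P : Place ℂ K, Divisorial N P → ∑ i, κ i * δ'' i P ≤ ∑ i, κ i * δ' i P
  lt : ∃ P : Place ℂ K, Divisorial N P ∧ ∑ i, κ i * δ'' i P < ∑ i, κ i * δ' i P

/-- **A Mori fibration** for the class `κ` of `K_X + Δ`, on the model with the coefficients `δ'`,
which is given by the class `μ`. Near `μ` the classes with `ℓ ≥ 0` are exactly the semiample ones and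
exactly the effective ones: `μ` is semiample and in the boundary of the effective cone, it defines the
contraction of an extremal ray, with the intersection numbers `ℓ`, onto a variety of smaller
dimension, and the extremal ray is `K_X + Δ`-negative. -/
structure IsFibration (κ μ : Fin p → ℚ) (δ' : Fin p → Place ℂ K → ℚ) (ℓ : Fin p → ℚ) :
    Prop where
  negative : ∑ i, ℓ i * κ i < 0
  trivial : ∑ i, ℓ i * μ i = 0
  wall : ∃ ε : ℚ, 0 < ε ∧ ∀ μ' : Fin p → ℚ, (∀ i, |μ' i - μ i| ≤ ε) →
    (0 ≤ ∑ i, ℓ i * μ' i ↔ SemiampleOn N δ δ' μ') ∧ (0 ≤ ∑ i, ℓ i * μ' i ↔ Effective N δ μ')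

end divisors

section proof

open Filter Topology Pool.Agent.T9h79.MM Pool.Agent.Q57.HK

variable {K : Type} [Field K] [Algebra ℂ K] {p N N0 : ℕ} {δ : Fin p → Place ℂ K → ℚ}

/-- neighbourhoods -/
theorem nhds_iff {Q : (Fin p → ℚ) → Prop} {μ : Fin p → ℚ} :
    (∀ᶠ μ' in 𝓝 μ, Q μ') ↔ ∃ ε : ℚ, 0 < ε ∧ ∀ μ' : Fin p → ℚ, (∀ i, |μ' i - μ i| ≤ ε) → Q μ' := by
  constructor
  · intro h
    obtain ⟨ε, hε, h1⟩ := Metric.eventually_nhds_iff.1 h
    obtain ⟨q, hq0, hq⟩ := exists_rat_btwn hε
    have hq0' : (0 : ℚ) < q := by exact_mod_cast hq0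
    refine ⟨q, hq0', fun μ' h2 => h1 (lt_of_le_of_lt ?_ hq)⟩
    refine (dist_pi_le_iff hq0.le).2 fun i => ?_
    have h3 : ((|μ' i - μ i| : ℚ) : ℝ) ≤ (q : ℝ) := by exact_mod_cast h2 i
    rw [Rat.dist_eq]
    push_cast at h3
    exact h3
  · rintro ⟨ε, hε, h⟩
    have h1 : ∀ᶠ μ' in 𝓝 μ, ∀ i, |μ' i - μ i| < ε := by
      rw [eventually_all]
      intro i
      have hc : Continuous fun μ' : Fin p → ℚ => |μ' i - μ i| := by fun_prop
      have h2 := hc.tendsto μ
      rw [sub_self, abs_zero] at h2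
      exact h2.eventually (gt_mem_nhds hε)
    exact h1.mono fun μ' h2 => h μ' fun i => (h2 i).le

/-- the values of a linear function -/
theorem vec (φ : (Fin p → ℚ) →ₗ[ℚ] ℚ) (x : Fin p → ℚ) :
    ∑ i, φ (Pi.single i 1) * x i = φ x := by
  classical
  have h1 : x = ∑ i, x i • (Pi.single i (1 : ℚ) : Fin p → ℚ) := by
    conv_lhs => rw [← Finset.univ_sum_single x]
    refine Finset.sum_congr rfl fun i _ => ?_
    ext j
    by_cases hj : j = i
    · subst hj
      simp
    · simp [hj]
  conv_rhs => rw [h1, map_sum]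
  refine Finset.sum_congr rfl fun i _ => ?_
  rw [map_smul, smul_eq_mul, mul_comm]

/-- the linear function of a place -/
noncomputable def lf (δ' : Fin p → Place ℂ K → ℚ) (P : {P : Place ℂ K // Divisorial N P}) :
    (Fin p → ℚ) →ₗ[ℚ] ℚ := Fintype.linearCombination ℚ fun i => δ' i P.1

theorem lf_apply (δ' : Fin p → Place ℂ K → ℚ) (P : {P : Place ℂ K // Divisorial N P})
    (μ : Fin p → ℚ) : lf δ' P μ = ∑ i, μ i * δ' i P.1 :=
  Fintype.linearCombination_apply ℚ _ μ

/-- the coefficients of a family of linear functions -/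
theorem exists_coeff (d : {P : Place ℂ K // Divisorial N P} → (Fin p → ℚ) →ₗ[ℚ] ℚ)
    (δ : Fin p → Place ℂ K → ℚ) : ∃ δ' : Fin p → Place ℂ K → ℚ, ∀ P, lf δ' P = d P := by
  classical
  refine ⟨fun i P => if h : Divisorial N P then d ⟨P, h⟩ (Pi.single i 1) else δ i P,
    fun P => ?_⟩
  refine LinearMap.ext fun μ => ?_
  rw [lf_apply, ← vec (d P) μ]
  refine Finset.sum_congr rfl fun i _ => ?_
  rw [dif_pos P.2, mul_comm]

/-- clearing denominators -/
theorem clear_den (e : Fin N0 → ℚ) (he : 0 ≤ e) :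
    ∃ k : ℕ, 1 ≤ k ∧ ∃ n : Fin N0 → ℕ, ∀ b, (k : ℚ) * e b = n b := by
  classical
  refine ⟨∏ b, (e b).den, Nat.one_le_iff_ne_zero.2
    (Finset.prod_ne_zero_iff.2 fun b _ => (e b).den_nz), ?_⟩
  have h : ∀ b, ∃ n : ℕ, ((∏ b, (e b).den : ℕ) : ℚ) * e b = n := by
    intro b
    obtain ⟨k, hk⟩ : (e b).den ∣ ∏ b, (e b).den := Finset.dvd_prod_of_mem _ (Finset.mem_univ b)
    have h3 : 0 ≤ (e b).num := Rat.num_nonneg.2 (he b)
    refine ⟨k * (e b).num.toNat, ?_⟩
    have h4 : (((e b).num.toNat : ℕ) : ℚ) = ((e b).num : ℚ) := by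
      have : (((e b).num.toNat : ℕ) : ℤ) = (e b).num := Int.toNat_of_nonneg h3
      exact_mod_cast congrArg (Int.cast : ℤ → ℚ) this
    have h5 : ((e b).den : ℚ) * e b = (e b).num := by
      rw [mul_comm]
      exact Rat.mul_den_eq_num (e b)
    push_cast
    rw [h4, ← h5]
    have h6 : ((∏ b, (e b).den : ℕ) : ℚ) = ((e b).den : ℚ) * k := by exact_mod_cast hk
    push_cast at h6
    rw [h6]
    ring
  choose n hn using h
  exact ⟨n, hn⟩

variable (g : Fin N0 → Fin p → ℤ) (f : Fin N0 → K)

/-- the rational vectors of the generators -/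
def gq : Fin N0 → Fin p → ℚ := fun b i => (g b i : ℚ)

/-- the orders of the generators -/
def cq (N : ℕ) : {P : Place ℂ K // Divisorial N P} → Fin N0 → ℚ := fun P b => (P.1.ord (f b) : ℚ)

/-- the sections of the generators -/
def IsGens (N : ℕ) (δ : Fin p → Place ℂ K → ℚ) : Prop :=
  (∀ b, f b ≠ 0 ∧ IsSection N δ (g b) (f b)) ∧
    ∀ (μ : Fin p → ℤ) (η : K), η ≠ 0 → IsSection N δ μ η → ∀ P : Place ℂ K, Mnl g f P μ η

variable {g f}

theorem T_nat (e : Fin N0 → ℕ) (ν : Fin p → ℤ) :
    T (gq g) (fun b => (e b : ℚ)) = (fun i => (ν i : ℚ)) ↔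
      ∀ i, ∑ b, (e b : ℤ) * g b i = ν i := by
  rw [T_apply, funext_iff]
  refine forall_congr' fun i => ?_
  rw [Finset.sum_apply]
  have h : ∑ b, ((e b : ℚ) • gq g b) i = ((∑ b, (e b : ℤ) * g b i : ℤ) : ℚ) := by
    push_cast
    refine Finset.sum_congr rfl fun b _ => ?_
    rw [Pi.smul_apply, smul_eq_mul, gq]
  rw [h]
  exact Int.cast_inj

theorem bdd (h : IsGens g f N δ) : Bdd (gq g) (cq f N) (lf (N := N) δ) := by
  intro P b
  have h1 := ((h.1 b).2 P.1 P.2).resolve_left (h.1 b).1
  rw [lf_apply]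
  exact h1

/-- the product of generators -/
theorem prod_section (h : IsGens g f N δ) (e : Fin N0 → ℕ) {ν : Fin p → ℤ}
    (hν : ∀ i, ∑ b, (e b : ℤ) * g b i = ν i) :
    ∏ b, f b ^ e b ≠ 0 ∧ IsSection N δ ν (∏ b, f b ^ e b) ∧
      ∀ P : Place ℂ K, P.ord (∏ b, f b ^ e b) = ∑ b, (e b : ℤ) * P.ord (f b) := by
  have h0 : ∏ b, f b ^ e b ≠ 0 := Finset.prod_ne_zero_iff.2 fun b _ => pow_ne_zero _ (h.1 b).1
  have h1 : ∀ P : Place ℂ K, P.ord (∏ b, f b ^ e b) = ∑ b, (e b : ℤ) * P.ord (f b) := by
    intro P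
    rw [ord_prod' P Finset.univ _ fun b _ => pow_ne_zero _ (h.1 b).1]
    exact Finset.sum_congr rfl fun b _ => P.ord_pow _ _
  refine ⟨h0, fun P hP => Or.inr ?_, h1⟩
  rw [h1 P]
  have h2 := (bdd h).ge ⟨P, hP⟩ (e := fun b => (e b : ℚ)) (fun b => Nat.cast_nonneg (e b))
  rw [(T_nat e ν).2 hν, lf_apply, cost_apply] at h2
  push_cast
  exact h2

/-- sections give combinations -/
theorem of_section (h : IsGens g f N δ) {m : ℕ} (hm : 1 ≤ m) {μ : Fin p → ℚ} {ν : Fin p → ℤ}
    (hν : ∀ i, (m : ℚ) * μ i = ν i) {η : K} (hη : η ≠ 0) (hs : IsSection N δ ν η)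
    (P : Place ℂ K) : ∃ e : Fin N0 → ℚ, 0 ≤ e ∧ T (gq g) e = μ ∧
      (m : ℚ) * ∑ b, e b * (P.ord (f b) : ℚ) ≤ P.ord η := by
  obtain ⟨e, he1, he2⟩ := h.2 ν η hη hs P
  have hm0 : (0 : ℚ) < m := by exact_mod_cast hm
  refine ⟨(m : ℚ)⁻¹ • fun b => (e b : ℚ), smul_nonneg (inv_nonneg.2 hm0.le)
    fun b => Nat.cast_nonneg (e b), ?_, ?_⟩
  · rw [map_smul, (T_nat e ν).2 he1]
    funext i
    rw [Pi.smul_apply, smul_eq_mul, ← hν i, ← mul_assoc, inv_mul_cancel₀ hm0.ne', one_mul]
  · rw [Finset.mul_sum]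
    have h1 : ((∑ b, (e b : ℤ) * P.ord (f b) : ℤ) : ℚ) ≤ (P.ord η : ℚ) := by exact_mod_cast he2
    refine le_trans (le_of_eq ?_) h1
    push_cast
    refine Finset.sum_congr rfl fun b _ => ?_
    rw [Pi.smul_apply, smul_eq_mul, ← mul_assoc, ← mul_assoc, mul_inv_cancel₀ hm0.ne', one_mul]

theorem sum_lf (δ' : Fin p → Place ℂ K → ℚ) (P : {P : Place ℂ K // Divisorial N P}) {m : ℕ}
    {μ : Fin p → ℚ} {ν : Fin p → ℤ} (hν : ∀ i, (m : ℚ) * μ i = ν i) :
    ∑ i, (ν i : ℚ) * δ' i P.1 = m * lf δ' P μ := by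
  rw [lf_apply, Finset.mul_sum]
  refine Finset.sum_congr rfl fun i _ => ?_
  rw [← hν i]
  ring

theorem eff_iff (h : IsGens g f N δ) (P0 : Place ℂ K) (μ : Fin p → ℚ) :
    Eff (gq g) μ ↔ Effective N δ μ := by
  constructor
  · rintro ⟨e, he, hT⟩
    obtain ⟨k, hk, n, hn⟩ := clear_den e he
    have h1 : ∀ i, (k : ℚ) * μ i = ((∑ b, (n b : ℤ) * g b i : ℤ) : ℚ) := by
      intro i
      rw [← hT, T_apply, Finset.sum_apply, Finset.mul_sum]
      push_cast
      refine Finset.sum_congr rfl fun b _ => ?_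
      rw [Pi.smul_apply, smul_eq_mul, ← mul_assoc, hn b, gq]
    obtain ⟨h2, h3, -⟩ := prod_section h n (ν := fun i => ∑ b, (n b : ℤ) * g b i) fun i => rfl
    exact ⟨k, hk, _, h1, _, h2, h3⟩
  · rintro ⟨m, hm, ν, hν, η, hη, hs⟩
    obtain ⟨e, he, hT, -⟩ := of_section h hm hν hη hs P0
    exact ⟨e, he, hT⟩

/-- **The translation.** -/
theorem lin_iff (h : IsGens g f N δ) (P0 : Place ℂ K) (δ' : Fin p → Place ℂ K → ℚ)
    (μ : Fin p → ℚ) :
    Lin (gq g) (cq f N) (lf (N := N) δ') μ ↔ SemiampleOn N δ δ' μ := by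
  classical
  constructor
  · rintro ⟨hE, hL⟩
    have hle : ∀ P : {P : Place ℂ K // Divisorial N P}, lf δ' P μ ≤ lf δ P μ := by
      intro P
      obtain ⟨-, e, he, hT, hc⟩ := hL P
      have h1 := (bdd h).ge P he
      rw [hT, hc] at h1
      linarith
    have hsec : ∀ (m : ℕ) (ν : Fin p → ℤ), (∀ i, (m : ℚ) * μ i = ν i) → ∀ η : K,
        IsSection N δ ν η ↔ IsSection N δ' ν η := by
      intro m ν hν η
      constructor
      · intro hs P hP
        by_cases hη : η = 0
        · exact Or.inl hη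
        right
        rcases Nat.eq_zero_or_pos m with rfl | hm
        · have h1 := (hs P hP).resolve_left hη
          have h2 := sum_lf δ ⟨P, hP⟩ hν
          have h3 := sum_lf δ' ⟨P, hP⟩ hν
          rw [Nat.cast_zero, zero_mul] at h2 h3
          simp only at h2 h3
          rw [h3]
          rw [h2] at h1
          exact h1
        obtain ⟨e, he, hT, hc⟩ := of_section h hm hν hη hs P
        have h1 := (hL ⟨P, hP⟩).1 e he hT
        have h3 := sum_lf δ' ⟨P, hP⟩ hν
        simp only at h3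
        rw [h3]
        rw [cost_apply] at h1
        have hm0 : (0 : ℚ) < m := by exact_mod_cast hm
        have h4 := mul_le_mul_of_nonneg_left h1 hm0.le
        have h5 : (m : ℚ) * ∑ b, e b * cq f N ⟨P, hP⟩ b =
          (m : ℚ) * ∑ b, e b * (P.ord (f b) : ℚ) := rfl
        rw [h5] at h4
        linarith
      · intro hs P hP
        refine (hs P hP).imp id fun h1 => le_trans ?_ h1
        have h2 := sum_lf δ ⟨P, hP⟩ hν
        have h3 := sum_lf δ' ⟨P, hP⟩ hν
        simp only at h2 h3
        rw [h2, h3]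
        exact neg_le_neg (mul_le_mul_of_nonneg_left (hle ⟨P, hP⟩) (Nat.cast_nonneg m))
    refine ⟨hsec, ?_⟩
    -- uniform denominators
    let c' : Option {P : Place ℂ K // Divisorial N P} → Fin N0 → ℚ := fun o => o.elim 0 (cq f N)
    let d' : Option {P : Place ℂ K // Divisorial N P} → (Fin p → ℚ) →ₗ[ℚ] ℚ :=
      fun o => o.elim 0 (lf (N := N) δ)
    have hb : Bdd (gq g) c' d' := by
      intro o b
      cases o with
      | none => simp [c', d']
      | some P => exact bdd h P b
    obtain ⟨m, hm, he⟩ := exists_den hb hE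
    have hm0 : (0 : ℚ) < m := by exact_mod_cast hm
    obtain ⟨e0, he0, -⟩ := he none
    obtain ⟨ν, hν0⟩ : ∃ ν : Fin p → ℤ, ν = fun i => ∑ b, (e0 b : ℤ) * g b i := ⟨_, rfl⟩
    have hν : ∀ i, (m : ℚ) * μ i = ν i := by
      intro i
      have h1 := congrFun he0 i
      rw [Pi.smul_apply, smul_eq_mul, Finset.sum_apply] at h1
      rw [← h1, hν0]
      push_cast
      refine Finset.sum_congr rfl fun b _ => ?_
      rw [Pi.smul_apply, smul_eq_mul, gq]
    refine ⟨m, hm, ν, hν, ?_, fun P hP => ?_⟩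
    · obtain ⟨h2, h3, -⟩ := prod_section h e0 (ν := ν) fun i => by rw [hν0]
      exact ⟨_, h2, (hsec m ν hν _).1 h3⟩
    · obtain ⟨e, he1, he2⟩ := he (some ⟨P, hP⟩)
      have h1 : ∀ i, ∑ b, (e b : ℤ) * g b i = ν i := by
        intro i
        have h1 := congrFun he1 i
        rw [Pi.smul_apply, smul_eq_mul, Finset.sum_apply, hν i] at h1
        have h2 : ((∑ b, (e b : ℤ) * g b i : ℤ) : ℚ) = (ν i : ℚ) := by
          rw [← h1]
          push_cast
          refine Finset.sum_congr rfl fun b _ => ?_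
          rw [Pi.smul_apply, smul_eq_mul, gq]
        exact_mod_cast h2
      obtain ⟨h2, h3, h4⟩ := prod_section h e h1
      refine ⟨_, h2, (hsec m ν hν _).1 h3, ?_⟩
      obtain ⟨-, e', he', hT', hc'⟩ := hL ⟨P, hP⟩
      have h5 := he2 e' he' hT'
      have h6 : cost c' (some ⟨P, hP⟩) e' = - lf δ' ⟨P, hP⟩ μ := hc'
      rw [h6] at h5
      have h7 := sum_lf δ' ⟨P, hP⟩ hν
      simp only at h7
      rw [h7, h4 P]
      have h8 : ∑ b, (e b : ℚ) * c' (some ⟨P, hP⟩) b =
          ((∑ b, (e b : ℤ) * P.ord (f b) : ℤ) : ℚ) := by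
        push_cast
        rfl
      rw [h8] at h5
      linarith
  · rintro ⟨hsec, m, hm, ν, hν, ⟨η0, hη0, hs0⟩, hbpf⟩
    have hm0 : (0 : ℚ) < m := by exact_mod_cast hm
    have hlow : ∀ (P : {P : Place ℂ K // Divisorial N P}) (e : Fin N0 → ℚ), 0 ≤ e →
        T (gq g) e = μ → - lf δ' P μ ≤ cost (cq f N) P e := by
      intro P e he hT
      obtain ⟨k, hk, n, hn⟩ := clear_den e he
      have hk0 : (0 : ℚ) < k := by exact_mod_cast hk
      have h1 : ∀ i, (k : ℚ) * μ i = ((∑ b, (n b : ℤ) * g b i : ℤ) : ℚ) := by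
        intro i
        rw [← hT, T_apply, Finset.sum_apply, Finset.mul_sum]
        push_cast
        refine Finset.sum_congr rfl fun b _ => ?_
        rw [Pi.smul_apply, smul_eq_mul, ← mul_assoc, hn b, gq]
      obtain ⟨h2, h3, h4⟩ := prod_section h n (ν := fun i => ∑ b, (n b : ℤ) * g b i) fun i => rfl
      have h5 := (((hsec k _ h1 _).1 h3) P.1 P.2).resolve_left h2
      rw [sum_lf δ' P h1, h4 P.1] at h5
      push_cast at h5
      have h6 : ∑ b, (n b : ℚ) * (P.1.ord (f b) : ℚ) = k * cost (cq f N) P e := by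
        rw [cost_apply, Finset.mul_sum]
        refine Finset.sum_congr rfl fun b _ => ?_
        rw [← hn b, mul_assoc]
        rfl
      rw [h6] at h5
      have h7 : (k : ℚ) * (- lf δ' P μ) ≤ k * cost (cq f N) P e := by linarith
      exact le_of_mul_le_mul_left h7 hk0
    refine ⟨?_, fun P => ⟨hlow P, ?_⟩⟩
    · obtain ⟨e, he, hT, -⟩ := of_section h hm hν hη0 ((hsec m ν hν _).2 hs0) P0
      exact ⟨e, he, hT⟩
    · obtain ⟨η, hη, hs, hle⟩ := hbpf P.1 P.2
      obtain ⟨e, he, hT, hc⟩ := of_section h hm hν hη ((hsec m ν hν _).2 hs) P.1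
      refine ⟨e, he, hT, le_antisymm ?_ (hlow P e he hT)⟩
      rw [sum_lf δ' P hν] at hle
      have h1 : ∑ b, e b * (P.1.ord (f b) : ℚ) = cost (cq f N) P e := by
        rw [cost_apply]
        rfl
      rw [h1] at hc
      have h2 : (m : ℚ) * cost (cq f N) P e ≤ m * (- lf δ' P μ) := by linarith
      exact le_of_mul_le_mul_left h2 hm0

/-- **The minimal model program**, if the ring of sections is finitely generated. -/
theorem program (h : IsGens g f N δ) (P0 : Place ℂ K) (κ α₀ : Fin p → ℚ)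
    (hα₀ : AmpleOn N δ δ α₀) (ε : ℚ) (hε : 0 < ε) :
    ∃ α : Fin p → ℚ, (∀ i, |α i - α₀ i| ≤ ε) ∧ AmpleOn N δ δ α ∧
      ∃ (L : ℕ) (t : ℕ → ℚ) (δs : ℕ → Fin p → Place ℂ K → ℚ) (ℓ : ℕ → Fin p → ℚ),
        L ≤ Fintype.card (Finset (Fin N0) × (Fin N0 ⊕ Fin p)) ∧ δs 0 = δ ∧
        (∀ j < L, t (j + 1) < t j) ∧ 0 ≤ t L ∧
        (∀ s, t 0 < s → AmpleOn N δ (δs 0) (κ + s • α)) ∧
        (∀ j < L, ∀ s, t (j + 1) < s → s < t j → AmpleOn N δ (δs (j + 1)) (κ + s • α)) ∧
        (∀ j < L, IsStep N δ κ (κ + t j • α) (δs j) (δs (j + 1)) (ℓ j)) ∧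
        ((t L = 0 ∧ SemiampleOn N δ (δs L) κ) ∨
          (0 < t L ∧ IsFibration N δ κ (κ + t L • α) (δs L) (ℓ L))) := by
  classical
  have hamp : ∀ δ' μ, AmpleOn N δ δ' μ ↔
      ∀ᶠ μ' in 𝓝 μ, Lin (gq g) (cq f N) (lf (N := N) δ') μ' := by
    intro δ' μ
    rw [nhds_iff]
    refine exists_congr fun ε => and_congr_right fun _ => forall_congr' fun μ' => ?_
    exact imp_congr_right fun _ => (lin_iff h P0 δ' μ').symm
  have h0 := (hamp δ α₀).1 hα₀
  have h1 : ∀ᶠ α in 𝓝 α₀, (∀ i, |α i - α₀ i| ≤ ε) ∧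
      ∀ᶠ μ' in 𝓝 α, Lin (gq g) (cq f N) (lf (N := N) δ) μ' :=
    (nhds_iff.2 ⟨ε, hε, fun _ h => h⟩).and h0.eventually_nhds
  obtain ⟨α, ⟨hα1, hα2⟩, hG⟩ := exists_GP (gq g) κ α₀ h1
  obtain ⟨L, t, ds, φ, hL, hds0, hmono, hnn, hamp0, hampj, hstep, hfin⟩ :=
    main_chain hG (bdd h) hα2
  have hco : ∀ j, ∃ δ' : Fin p → Place ℂ K → ℚ, (∀ P, lf (N := N) δ' P = ds j P) ∧
      (j = 0 → δ' = δ) := by
    intro j
    cases j with
    | zero => exact ⟨δ, fun P => by rw [hds0], fun _ => rfl⟩
    | succ j =>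
      obtain ⟨δ', h1⟩ := exists_coeff (ds (j + 1)) δ
      exact ⟨δ', h1, fun h => absurd h (Nat.succ_ne_zero j)⟩
  choose δs hδs hδs0 using hco
  have hlf : ∀ j, lf (N := N) (δs j) = ds j := fun j => funext (hδs j)
  refine ⟨α, hα1, (hamp δ α).2 hα2, L, t, δs, fun j i => φ j (Pi.single i 1), hL, hδs0 0 rfl,
    hmono, hnn, fun s hs => ?_, fun j hj s h2 h3 => ?_, fun j hj => ?_, ?_⟩
  · rw [hamp, hlf]
    exact hamp0 s hs
  · rw [hamp, hlf]
    exact hampj j hj s h2 h3
  · obtain ⟨h2, h3, h4, h5, P, h6⟩ := hstep j hj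
    refine ⟨by rw [vec]; exact h2, by rw [vec]; exact h3, ?_, fun P hP => ?_, P.1, P.2, ?_⟩
    · rw [← nhds_iff]
      refine h4.mono fun μ' h7 => ?_
      rw [vec, ← lin_iff h P0, ← lin_iff h P0, hlf, hlf]
      exact h7
    · have h7 := h5 ⟨P, hP⟩
      rw [← hδs, ← hδs, lf_apply, lf_apply] at h7
      exact h7
    · rw [← hδs, ← hδs, lf_apply, lf_apply] at h6
      exact h6
  · rcases hfin with ⟨h2, h3⟩ | ⟨h2, h3, h4, h5⟩
    · left
      refine ⟨h2, ?_⟩
      rw [← lin_iff h P0, hlf]
      exact h3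
    · right
      refine ⟨h2, ⟨by rw [vec]; exact h3, by rw [vec]; exact h4, ?_⟩⟩
      rw [← nhds_iff]
      refine h5.mono fun μ' h7 => ?_
      rw [vec, ← lin_iff h P0, ← eff_iff h P0, hlf]
      exact h7

end proof

/-- there are prime divisors over the cover -/
theorem exists_P0 {r N R : ℕ} {n d : Fin r → ℕ} (hr : 1 ≤ r) (hn : ∀ i, 1 ≤ n i)
    (hd : ∀ i, 1 ≤ d i) (hN : N = ∑ i, n i)
    {F : ∀ i, MvPolynomial (Fin (n i + 1)) ℂ} (hF : ∀ i, (F i).IsHomogeneous (d i))
    (hs : ∀ i, Smooth (F i)) {m : Fin R → ℕ} (hm : ∀ j, 1 ≤ m j) {a : Fin R → Fin r → ℕ}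
    (hdiv : ∀ j i, m j ∣ a j i * d i)
    {K : Type} [Field K] [Algebra ℂ K] {x : ∀ i, Fin (n i + 1) → K} (hx0 : ∀ i, x i 0 ≠ 0)
    (hbas : IsTranscendenceBasis ℂ (affine x)) {z : Fin R → K}
    (hz : ∀ j, z j ^ m j = ∏ i, (aeval (x i) (F i) / x i 0 ^ d i) ^ a j i)
    (hgen : IntermediateField.adjoin ℂ (Set.range (affine x) ∪ Set.range z) = ⊤) :
    ∃ P : Place ℂ K, Divisorial N P := by
  obtain ⟨N', e, Φ, C, x', F', hN', hΦ, hCM, hCa, -, -, -⟩ :=
    Pool.Agent.Q57.FT.setup (N := N) hr hn hN hd hF hs hx0 hbas hm hdiv hz hgen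
  have hv : (fun _ => ∏ j, m j : Fin r → ℕ) ≠ 0 := by
    intro h0
    have h1 := congrFun h0 ⟨0, hr⟩
    rw [Pi.zero_apply, Finset.prod_eq_zero_iff] at h1
    obtain ⟨j, -, h2⟩ := h1
    have := hm j
    omega
  obtain ⟨X, -⟩ := C.exists_dir hv (by
    intro j
    refine Finset.dvd_sum fun t _ => Dvd.dvd.mul_left ?_ _
    rw [hCM]
    exact Finset.dvd_prod_of_mem _ (Finset.mem_univ j))
  obtain ⟨P, -, -, hP, -⟩ := Pool.Agent.Q57.GE.exists_place C hΦ X
  subst hN'
  exact ⟨P, hP⟩

/-- **The minimal model program.** Let `K` be the function field of an abelian cover `Y` of the product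
of the projective `n i`-spaces which is branched along smooth hypersurfaces `F i = 0` of the factors,
`X` the toroidal modification of `Y` which is given by `fan`, and `D i`, `i < p`, toroidal
`ℚ`-Cartier divisors on `X` with the degrees `β i t` and the coefficients `c i`. There is a number `B`
such that for every class `κ` of `K_X + Δ` and every ample class `α₀` there is an ample class `α`,
arbitrarily near to `α₀`, such that the minimal model program for `κ` with scaling of `α` is a sequence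
of at most `B` steps, each of which is the crossing of a facet of the nef cone (the contraction of one
extremal ray, and its flip if it is small): there are models `0, ..., L`, given by the coefficients
`δs j`, and numbers `t 0 > ... > t L ≥ 0`, such that the model `0` is `X`, the class `κ + s * α` is
ample on the model `j` for `t j < s < t (j - 1)` (for all `s > t 0` if `j = 0`), the model `j + 1` is
obtained from the model `j` by a `κ`-negative step at the class `κ + t j * α`, and finally either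
`t L = 0` and `κ` is semiample, hence nef, on the last model, or `t L > 0` and the class
`κ + t L * α` defines a Mori fibration of the last model. -/
theorem result (r N R p : ℕ) (n d : Fin r → ℕ) (hr : 1 ≤ r) (hn : ∀ i, 1 ≤ n i)
    (hd : ∀ i, 1 ≤ d i) (hN : N = ∑ i, n i)
    (F : ∀ i, MvPolynomial (Fin (n i + 1)) ℂ) (hF : ∀ i, (F i).IsHomogeneous (d i))
    (hs : ∀ i, Smooth (F i)) (m : Fin R → ℕ) (hm : ∀ j, 1 ≤ m j) (a : Fin R → Fin r → ℕ)
    (hdiv : ∀ j i, m j ∣ a j i * d i)
    (K : Type) [Field K] [Algebra ℂ K] (x : ∀ i, Fin (n i + 1) → K) (hx0 : ∀ i, x i 0 ≠ 0)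
    (hbas : IsTranscendenceBasis ℂ (affine x)) (z : Fin R → K)
    (hz : ∀ j, z j ^ m j = ∏ i, (aeval (x i) (F i) / x i 0 ^ d i) ^ a j i)
    (hgen : IntermediateField.adjoin ℂ (Set.range (affine x) ∪ Set.range z) = ⊤)
    (fan : Finset (Finset (Fin r → ℕ))) (hfan : IsFan m a fan)
    (c : Fin p → (Fin r → ℕ) → ℚ) (hc0 : ∀ i, c i 0 = 0) (β : Fin p → Fin r → ℤ)
    (u : Finset (Fin r → ℕ) → Fin p → Fin r → ℚ)
    (hlin : ∀ σ ∈ fan, ∀ i v, Admissible m a v → InCone σ v → - c i v = ∑ k, u σ i k * v k)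
    (δ : Fin p → Place ℂ K → ℚ) (hδ : ∀ i P, δ i P = coefficient F d x (c i) (β i) P) :
    ∃ B : ℕ, ∀ κ α₀ : Fin p → ℚ, AmpleOn N δ δ α₀ → ∀ ε : ℚ, 0 < ε →
      ∃ α : Fin p → ℚ, (∀ i, |α i - α₀ i| ≤ ε) ∧ AmpleOn N δ δ α ∧
        ∃ (L : ℕ) (t : ℕ → ℚ) (δs : ℕ → Fin p → Place ℂ K → ℚ) (ℓ : ℕ → Fin p → ℚ),
          L ≤ B ∧ δs 0 = δ ∧ (∀ j < L, t (j + 1) < t j) ∧ 0 ≤ t L ∧
          (∀ s, t 0 < s → AmpleOn N δ (δs 0) (κ + s • α)) ∧
          (∀ j < L, ∀ s, t (j + 1) < s → s < t j → AmpleOn N δ (δs (j + 1)) (κ + s • α)) ∧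
          (∀ j < L, IsStep N δ κ (κ + t j • α) (δs j) (δs (j + 1)) (ℓ j)) ∧
          ((t L = 0 ∧ SemiampleOn N δ (δs L) κ) ∨
            (0 < t L ∧ IsFibration N δ κ (κ + t L • α) (δs L) (ℓ L))) := by
  obtain ⟨P0, -⟩ := exists_P0 hr hn hd hN hF hs hm hdiv hx0 hbas hz hgen
  obtain ⟨N0, g, f, h⟩ := Pool.Agent.Q57.HK.gens_of_fg (Pool.Agent.Q57.CX.main_cox (N := N) hr hn
    hN hd hF hs hx0 hbas hm hdiv hz hgen (S := fan) ⟨hfan.adm, hfan.full, hfan.cover⟩ hc0 (u := u)
    hlin (β := β) hδ)
  exact ⟨_, fun κ α₀ hα₀ ε hε => program h P0 κ α₀ hα₀ ε hε⟩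

end Pool.Agent.Results.MP_a27c81_ag.MinimalModelProgram
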